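import Pool.Agent.Helper99.SZ.Stmts3

set_option autoImplicit false

/-! Module CHA: change of one variable, sizes of the coefficients. -/

namespace Pool.Helper99.SZ

/-- the exponent vector -/
noncomputable def cha_f {v K : ℕ} (k : Sx v K) : Fin v →₀ ℕ :=
  Finsupp.equivFunOnFinite.symm (fun i => (k.1 i : ℕ))

theorem cha_f_inj {v K : ℕ} : Function.Injective (cha_f : Sx v K → Fin v →₀ ℕ) := by
  intro k k' h
  apply Subtype.ext
  funext i
  apply Fin.ext
  exact DFunLike.congr_fun h i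

theorem cha_sum {v K : ℕ} (f : MvPolynomial (Fin v) ℂ)
    (hf : f.totalDegree ≤ K) (z : Fin v → ℂ) :
    MvPolynomial.eval z f = ∑ k : Sx v K, f.coeff (cha_f k) * ∏ i, z i ^ (k.1 i : ℕ) := by
  classical
  rw [MvPolynomial.eval_eq']
  have h1 : ∑ k : Sx v K, f.coeff (cha_f k) * ∏ i, z i ^ (k.1 i : ℕ) =
      ∑ d ∈ Finset.univ.image (cha_f : Sx v K → Fin v →₀ ℕ),
        f.coeff d * ∏ i, z i ^ d i := by
    rw [Finset.sum_image fun a _ b _ h => cha_f_inj h]
    rfl
  rw [h1]
  refine Finset.sum_subset ?_ ?_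
  · intro d hd
    have h2 := MvPolynomial.le_totalDegree hd
    rw [Finsupp.sum_fintype _ _ (fun _ => rfl)] at h2
    have h3 := h2.trans hf
    have h4 : ∀ i, d i < K + 1 := by
      intro i
      have h5 := Finset.single_le_sum (f := fun i => d i) (fun _ _ => Nat.zero_le _)
        (Finset.mem_univ i)
      have h6 : d i ≤ ∑ i, d i := h5
      omega
    rw [Finset.mem_image]
    refine ⟨⟨fun i => ⟨d i, h4 i⟩, h3⟩, Finset.mem_univ _, ?_⟩
    ext i
    rfl
  · intro d _ hd
    rw [MvPolynomial.notMem_support_iff.1 hd, zero_mul]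

/-- majorisation of polynomials -/
def cha_M {v : ℕ} (f : MvPolynomial (Fin v) ℂ) (g : MvPolynomial (Fin v) ℝ) : Prop :=
  ∀ d, ‖f.coeff d‖ ≤ g.coeff d

theorem cha_mul {v : ℕ} {f1 f2 : MvPolynomial (Fin v) ℂ} {g1 g2 : MvPolynomial (Fin v) ℝ}
    (h1 : cha_M f1 g1) (h2 : cha_M f2 g2) : cha_M (f1 * f2) (g1 * g2) := by
  classical
  intro d
  rw [MvPolynomial.coeff_mul, MvPolynomial.coeff_mul]
  refine (norm_sum_le _ _).trans (Finset.sum_le_sum fun x _ => ?_)
  rw [norm_mul]
  exact mul_le_mul (h1 _) (h2 _) (norm_nonneg _) ((norm_nonneg _).trans (h1 _))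

theorem cha_one {v : ℕ} : cha_M (1 : MvPolynomial (Fin v) ℂ) 1 := by
  classical
  intro d
  rw [MvPolynomial.coeff_one, MvPolynomial.coeff_one]
  split_ifs <;> simp

theorem cha_pow {v : ℕ} {f : MvPolynomial (Fin v) ℂ} {g : MvPolynomial (Fin v) ℝ}
    (h : cha_M f g) (k : ℕ) : cha_M (f ^ k) (g ^ k) := by
  induction k with
  | zero => rw [pow_zero, pow_zero]; exact cha_one
  | succ k ih => rw [pow_succ, pow_succ]; exact cha_mul ih h

theorem cha_prod {v : ℕ} {ι : Type} (s : Finset ι) (f : ι → MvPolynomial (Fin v) ℂ)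
    (g : ι → MvPolynomial (Fin v) ℝ) (h : ∀ i ∈ s, cha_M (f i) (g i)) :
    cha_M (∏ i ∈ s, f i) (∏ i ∈ s, g i) := by
  classical
  induction s using Finset.induction_on with
  | empty => rw [Finset.prod_empty, Finset.prod_empty]; exact cha_one
  | insert a s ha ih =>
    rw [Finset.prod_insert ha, Finset.prod_insert ha]
    exact cha_mul (h a (Finset.mem_insert_self _ _))
      (ih fun i hi => h i (Finset.mem_insert_of_mem hi))

theorem cha_add {v : ℕ} {f1 f2 : MvPolynomial (Fin v) ℂ} {g1 g2 : MvPolynomial (Fin v) ℝ}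
    (h1 : cha_M f1 g1) (h2 : cha_M f2 g2) : cha_M (f1 + f2) (g1 + g2) := by
  intro d
  rw [MvPolynomial.coeff_add, MvPolynomial.coeff_add]
  exact (norm_add_le _ _).trans (add_le_add (h1 d) (h2 d))

theorem cha_summ {v : ℕ} {ι : Type} (s : Finset ι) (f : ι → MvPolynomial (Fin v) ℂ)
    (g : ι → MvPolynomial (Fin v) ℝ) (h : ∀ i ∈ s, cha_M (f i) (g i)) :
    cha_M (∑ i ∈ s, f i) (∑ i ∈ s, g i) := by
  intro d
  rw [MvPolynomial.coeff_sum, MvPolynomial.coeff_sum]
  exact (norm_sum_le _ _).trans (Finset.sum_le_sum fun i hi => h i hi d)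

theorem cha_X {v : ℕ} (i : Fin v) : cha_M (MvPolynomial.X i) (MvPolynomial.X i) := by
  classical
  intro d
  rw [MvPolynomial.coeff_X, MvPolynomial.coeff_X]
  split_ifs <;> simp

theorem cha_CX {v : ℕ} (i : Fin v) (a : ℂ) (ha : ‖a‖ ≤ 1) :
    cha_M (MvPolynomial.C a * MvPolynomial.X i) (MvPolynomial.X i) := by
  intro d
  rw [MvPolynomial.coeff_C_mul, norm_mul]
  calc ‖a‖ * ‖(MvPolynomial.X i : MvPolynomial (Fin v) ℂ).coeff d‖ ≤
        1 * ‖(MvPolynomial.X i : MvPolynomial (Fin v) ℂ).coeff d‖ :=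
        mul_le_mul_of_nonneg_right ha (norm_nonneg _)
    _ = ‖(MvPolynomial.X i : MvPolynomial (Fin v) ℂ).coeff d‖ := one_mul _
    _ ≤ _ := cha_X i d

theorem cha_bound {v : ℕ} {f : MvPolynomial (Fin v) ℂ} {g : MvPolynomial (Fin v) ℝ}
    (h : cha_M f g) (d : Fin v →₀ ℕ) : ‖f.coeff d‖ ≤ MvPolynomial.eval (fun _ => 1) g := by
  classical
  have hp : ∀ d, 0 ≤ g.coeff d := fun d => (norm_nonneg _).trans (h d)
  refine (h d).trans ?_
  rw [MvPolynomial.eval_eq']
  simp only [one_pow, Finset.prod_const_one, mul_one]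
  by_cases hd : d ∈ g.support
  · exact Finset.single_le_sum (f := fun d => g.coeff d) (fun d _ => hp d) hd
  · rw [MvPolynomial.notMem_support_iff.1 hd]
    exact Finset.sum_nonneg fun d _ => hp d

theorem st_CHA : ST_CHA := by
  classical
  intro v K j1 e he
  let s : Fin v → MvPolynomial (Fin v) ℂ := fun i =>
    if i = j1 then MvPolynomial.X j1 +
      ∑ j ∈ Finset.univ.erase j1, MvPolynomial.C (e j) * MvPolynomial.X j
    else MvPolynomial.X i
  let S : Fin v → MvPolynomial (Fin v) ℝ := fun i =>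
    if i = j1 then MvPolynomial.X j1 + ∑ j ∈ Finset.univ.erase j1, MvPolynomial.X j
    else MvPolynomial.X i
  have hCX : ∀ (a : ℂ) (j : Fin v),
      (MvPolynomial.C a * MvPolynomial.X j : MvPolynomial (Fin v) ℂ).totalDegree ≤ 1 := by
    intro a j
    refine (MvPolynomial.totalDegree_mul _ _).trans ?_
    rw [MvPolynomial.totalDegree_C, MvPolynomial.totalDegree_X]
  have hs : ∀ i, (s i).totalDegree ≤ 1 := by
    intro i
    by_cases hi : i = j1
    · have h1 : s i = MvPolynomial.X j1 +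
          ∑ j ∈ Finset.univ.erase j1, MvPolynomial.C (e j) * MvPolynomial.X j := if_pos hi
      rw [h1]
      refine (MvPolynomial.totalDegree_add _ _).trans (max_le ?_ ?_)
      · rw [MvPolynomial.totalDegree_X]
      · refine (MvPolynomial.totalDegree_finsetSum _ _).trans ?_
        exact Finset.sup_le fun j _ => hCX _ _
    · have h1 : s i = MvPolynomial.X i := if_neg hi
      rw [h1, MvPolynomial.totalDegree_X]
  have hsS : ∀ i, cha_M (s i) (S i) := by
    intro i
    by_cases hi : i = j1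
    · have h1 : s i = MvPolynomial.X j1 +
          ∑ j ∈ Finset.univ.erase j1, MvPolynomial.C (e j) * MvPolynomial.X j := if_pos hi
      have h2 : S i = MvPolynomial.X j1 +
          ∑ j ∈ Finset.univ.erase j1, MvPolynomial.X j := if_pos hi
      rw [h1, h2]
      exact cha_add (cha_X _) (cha_summ _ _ _ fun j _ => cha_CX j _ (he j))
    · have h1 : s i = MvPolynomial.X i := if_neg hi
      have h2 : S i = MvPolynomial.X i := if_neg hi
      rw [h1, h2]
      exact cha_X i
  have hv : 1 ≤ v := Nat.one_le_iff_ne_zero.2 (fun h => by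
    have := j1.2
    omega)
  have hvR : (1 : ℝ) ≤ v := by exact_mod_cast hv
  have hSe : ∀ i, MvPolynomial.eval (fun _ => (1 : ℝ)) (S i) = if i = j1 then (v : ℝ) else 1 := by
    intro i
    by_cases hi : i = j1
    · have h2 : S i = MvPolynomial.X j1 +
          ∑ j ∈ Finset.univ.erase j1, MvPolynomial.X j := if_pos hi
      rw [h2, if_pos hi, map_add, map_sum]
      simp only [MvPolynomial.eval_X, Finset.sum_const, nsmul_eq_mul, mul_one]
      rw [Finset.card_erase_of_mem (Finset.mem_univ _), Finset.card_univ, Fintype.card_fin,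
        Nat.cast_sub hv]
      push_cast
      ring
    · have h2 : S i = MvPolynomial.X i := if_neg hi
      rw [h2, if_neg hi, MvPolynomial.eval_X]
  let F : Sx v K → MvPolynomial (Fin v) ℂ := fun k => ∏ i, s i ^ (k.1 i : ℕ)
  have hF : ∀ k, (F k).totalDegree ≤ K := by
    intro k
    refine (MvPolynomial.totalDegree_finsetProd _ _).trans ?_
    refine le_trans (Finset.sum_le_sum fun i _ => ?_) k.2
    refine (MvPolynomial.totalDegree_pow _ _).trans ?_
    calc (k.1 i : ℕ) * (s i).totalDegree ≤ (k.1 i : ℕ) * 1 := Nat.mul_le_mul_left _ (hs i)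
      _ = (k.1 i : ℕ) := mul_one _
  refine ⟨fun k k' => (F k).coeff (cha_f k'), ?_, ?_⟩
  · intro k k'
    have h1 : cha_M (F k) (∏ i, S i ^ (k.1 i : ℕ)) :=
      cha_prod _ _ _ fun i _ => cha_pow (hsS i) _
    refine (cha_bound h1 _).trans ?_
    rw [map_prod]
    have h2 : ∏ i, MvPolynomial.eval (fun _ => (1 : ℝ)) (S i ^ (k.1 i : ℕ)) =
        (v : ℝ) ^ (k.1 j1 : ℕ) := by
      rw [← Finset.mul_prod_erase Finset.univ _ (Finset.mem_univ j1), map_pow, hSe, if_pos rfl]
      rw [Finset.prod_eq_one, mul_one]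
      intro i hi
      rw [map_pow, hSe, if_neg (Finset.ne_of_mem_erase hi), one_pow]
    rw [h2]
    have h3 : (k.1 j1 : ℕ) ≤ K := Nat.lt_succ_iff.1 (k.1 j1).2
    exact pow_le_pow_right₀ hvR h3
  · intro ζ y hζ k
    let z : Fin v → ℂ := fun i => if i = j1 then y else ζ i
    have hz1 : z j1 = y := if_pos rfl
    have hz2 : ∀ i, i ≠ j1 → z i = ζ i := fun i hi => if_neg hi
    have hev : ∀ i, MvPolynomial.eval z (s i) = ζ i := by
      intro i
      by_cases hi : i = j1
      · have h1 : s i = MvPolynomial.X j1 +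
            ∑ j ∈ Finset.univ.erase j1, MvPolynomial.C (e j) * MvPolynomial.X j := if_pos hi
        rw [h1, map_add, MvPolynomial.eval_X, map_sum, hz1, hi, hζ]
        congr 1
        refine Finset.sum_congr rfl ?_
        intro j hj
        rw [map_mul, MvPolynomial.eval_C, MvPolynomial.eval_X,
          hz2 j (Finset.ne_of_mem_erase hj)]
      · have h1 : s i = MvPolynomial.X i := if_neg hi
        rw [h1, MvPolynomial.eval_X, hz2 i hi]
    have h1 : MvPolynomial.eval z (F k) = ∏ i, ζ i ^ (k.1 i : ℕ) := by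
      rw [map_prod]
      refine Finset.prod_congr rfl ?_
      intro i _
      rw [map_pow]
      congr 1
      exact hev i
    rw [← h1, cha_sum (F k) (hF k) z]
    refine Finset.sum_congr rfl ?_
    intro k' _
    congr 1
    rw [← Finset.mul_prod_erase Finset.univ (fun i => z i ^ (k'.1 i : ℕ)) (Finset.mem_univ j1), hz1]
    congr 1
    refine Finset.prod_congr rfl ?_
    intro i hi
    rw [hz2 i (Finset.ne_of_mem_erase hi)]

end Pool.Helper99.SZ
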