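import Pool.Agent.Helper99.SZ.Stmts2

set_option autoImplicit false

/-! Module CHG: change of one variable with `p`-integral coefficients. -/

namespace Pool.Helper99.SZ

/-- the rational numbers integral at `p` -/
def chg_R (p : ℕ) (hp : p.Prime) : Subring ℚ where
  carrier := {x | pint p x}
  mul_mem' := by
    intro x y hx hy h
    have h1 := h.trans (Rat.mul_den_dvd x y)
    rcases (hp.dvd_mul).1 h1 with h2 | h2
    · exact hx h2
    · exact hy h2
  one_mem' := by
    intro h
    have h1 : p ∣ 1 := h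
    exact hp.one_lt.ne' (Nat.dvd_one.1 h1)
  add_mem' := by
    intro x y hx hy h
    have h1 := h.trans (Rat.add_den_dvd x y)
    rcases (hp.dvd_mul).1 h1 with h2 | h2
    · exact hx h2
    · exact hy h2
  zero_mem' := by
    intro h
    have h1 : p ∣ 1 := h
    exact hp.one_lt.ne' (Nat.dvd_one.1 h1)
  neg_mem' := by
    intro x hx h
    rw [Rat.neg_den] at h
    exact hx h

/-- the exponent vector -/
noncomputable def chg_f {v K : ℕ} (k : Sx v K) : Fin v →₀ ℕ :=
  Finsupp.equivFunOnFinite.symm (fun i => (k.1 i : ℕ))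

theorem chg_f_apply {v K : ℕ} (k : Sx v K) (i : Fin v) : chg_f k i = (k.1 i : ℕ) := rfl

theorem chg_f_inj {v K : ℕ} : Function.Injective (chg_f : Sx v K → Fin v →₀ ℕ) := by
  intro k k' h
  apply Subtype.ext
  funext i
  apply Fin.ext
  exact DFunLike.congr_fun h i

theorem chg_sum {v K : ℕ} {R : Type} [CommRing R] (f : MvPolynomial (Fin v) R)
    (hf : f.totalDegree ≤ K) (g : R →+* ℚ) (z : Fin v → ℚ) :
    MvPolynomial.eval₂ g z f = ∑ k : Sx v K, g (f.coeff (chg_f k)) * ∏ i, z i ^ (k.1 i : ℕ) := by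
  classical
  rw [MvPolynomial.eval₂_eq']
  have h1 : ∑ k : Sx v K, g (f.coeff (chg_f k)) * ∏ i, z i ^ (k.1 i : ℕ) =
      ∑ d ∈ Finset.univ.image (chg_f : Sx v K → Fin v →₀ ℕ),
        g (f.coeff d) * ∏ i, z i ^ d i := by
    rw [Finset.sum_image fun a _ b _ h => chg_f_inj h]
    rfl
  rw [h1]
  refine Finset.sum_subset ?_ ?_
  · intro d hd
    have h2 := MvPolynomial.le_totalDegree hd
    rw [Finsupp.sum_fintype _ _ (fun _ => rfl)] at h2
    have h3 := h2.trans hf
    have h4 : ∀ i, d i < K + 1 := by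
      intro i
      have h5 := Finset.single_le_sum (f := fun i => d i) (fun _ _ => Nat.zero_le _)
        (Finset.mem_univ i)
      have h6 : d i ≤ ∑ i, d i := h5
      omega
    rw [Finset.mem_image]
    refine ⟨⟨fun i => ⟨d i, h4 i⟩, h3⟩, Finset.mem_univ _, ?_⟩
    ext i
    rfl
  · intro d _ hd
    rw [MvPolynomial.notMem_support_iff.1 hd, map_zero, zero_mul]

theorem st_CHG : ST_CHG := by
  classical
  intro p hp v K j1 α e hα he
  let R := chg_R p hp
  let α' : R := ⟨α, hα⟩
  let e' : Fin v → R := fun j => ⟨e j, he j⟩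
  let s : Fin v → MvPolynomial (Fin v) R := fun i =>
    if i = j1 then MvPolynomial.C α' * MvPolynomial.X j1 +
      ∑ j ∈ Finset.univ.erase j1, MvPolynomial.C (e' j) * MvPolynomial.X j
    else MvPolynomial.X i
  have hCX : ∀ (a : R) (j : Fin v),
      (MvPolynomial.C a * MvPolynomial.X j : MvPolynomial (Fin v) R).totalDegree ≤ 1 := by
    intro a j
    refine (MvPolynomial.totalDegree_mul _ _).trans ?_
    rw [MvPolynomial.totalDegree_C, MvPolynomial.totalDegree_X]
  have hs : ∀ i, (s i).totalDegree ≤ 1 := by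
    intro i
    by_cases hi : i = j1
    · have h1 : s i = MvPolynomial.C α' * MvPolynomial.X j1 +
          ∑ j ∈ Finset.univ.erase j1, MvPolynomial.C (e' j) * MvPolynomial.X j := if_pos hi
      rw [h1]
      refine (MvPolynomial.totalDegree_add _ _).trans (max_le (hCX _ _) ?_)
      refine (MvPolynomial.totalDegree_finsetSum _ _).trans ?_
      exact Finset.sup_le fun j _ => hCX _ _
    · have h1 : s i = MvPolynomial.X i := if_neg hi
      rw [h1, MvPolynomial.totalDegree_X]
  let F : Sx v K → MvPolynomial (Fin v) R := fun k => ∏ i, s i ^ (k.1 i : ℕ)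
  have hF : ∀ k, (F k).totalDegree ≤ K := by
    intro k
    refine (MvPolynomial.totalDegree_finsetProd _ _).trans ?_
    refine le_trans (Finset.sum_le_sum fun i _ => ?_) k.2
    refine (MvPolynomial.totalDegree_pow _ _).trans ?_
    calc (k.1 i : ℕ) * (s i).totalDegree ≤ (k.1 i : ℕ) * 1 := Nat.mul_le_mul_left _ (hs i)
      _ = (k.1 i : ℕ) := mul_one _
  refine ⟨fun k k' => ((F k).coeff (chg_f k') : R), fun k k' => ((F k).coeff (chg_f k')).2, ?_⟩
  intro ζ y hζ k
  let z : Fin v → ℚ := fun i => if i = j1 then y else ζ i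
  have hz1 : z j1 = y := if_pos rfl
  have hz2 : ∀ i, i ≠ j1 → z i = ζ i := fun i hi => if_neg hi
  have hev : ∀ i, MvPolynomial.eval₂ R.subtype z (s i) = ζ i := by
    intro i
    by_cases hi : i = j1
    · have h1 : s i = MvPolynomial.C α' * MvPolynomial.X j1 +
          ∑ j ∈ Finset.univ.erase j1, MvPolynomial.C (e' j) * MvPolynomial.X j := if_pos hi
      rw [h1, MvPolynomial.eval₂_add, MvPolynomial.eval₂_mul, MvPolynomial.eval₂_C,
        MvPolynomial.eval₂_X, MvPolynomial.eval₂_sum, hz1, hi, hζ]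
      congr 1
      refine Finset.sum_congr rfl ?_
      intro j hj
      rw [MvPolynomial.eval₂_mul, MvPolynomial.eval₂_C, MvPolynomial.eval₂_X,
        hz2 j (Finset.ne_of_mem_erase hj)]
      rfl
    · have h1 : s i = MvPolynomial.X i := if_neg hi
      rw [h1, MvPolynomial.eval₂_X, hz2 i hi]
  have h1 : MvPolynomial.eval₂ R.subtype z (F k) = ∏ i, ζ i ^ (k.1 i : ℕ) := by
    have h2 : MvPolynomial.eval₂ R.subtype z (F k) =
        MvPolynomial.eval₂Hom R.subtype z (F k) := rfl
    rw [h2, map_prod]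
    refine Finset.prod_congr rfl ?_
    intro i _
    rw [map_pow]
    congr 1
    exact hev i
  rw [← h1, chg_sum (F k) (hF k) R.subtype z]
  refine Finset.sum_congr rfl ?_
  intro k' _
  congr 1
  rw [← Finset.mul_prod_erase Finset.univ (fun i => z i ^ (k'.1 i : ℕ)) (Finset.mem_univ j1), hz1]
  congr 1
  refine Finset.prod_congr rfl ?_
  intro i hi
  rw [hz2 i (Finset.ne_of_mem_erase hi)]

end Pool.Helper99.SZ
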