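import Pool.Agent.Helper99.SZ.Stmts2
import Pool.Agent.Helper79.SZ.PDC

set_option autoImplicit false

/-! Module PC2: the data of the theorem on `P`-adic linear forms, explicit constant
(the proof is that of the module PDC of helper79). -/

namespace Pool.Helper99.SZ

open NumberField

theorem st_PC2 (hGEL1 : ST_GEL1) (hGEL2 : ST_GEL2) (hSUF : ST_SUF) (hKER : BK.ST_KER) :
    ST_PC2 := by
  intro m K _ _ hK3 σ hσ L _ _ e he hτ P hPinj hP hrat κ hκ nn 𝔞 hspan n s α hs A B S U Z hA hA2 hB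
    hCB hS hSκ hSn hU hUZ Q p T hQ hQ0 hp hpQ hT hne hT0 hpu
  have hA0 : (0 : ℝ) ≤ A := by linarith
  obtain ⟨hx0, hxadd, hxsmul, hG1⟩ := hGEL1 K κ hκ m n s
  obtain ⟨hn0, hnadd, hnsmul⟩ := hG1 σ P (fun j => (hP j).2) nn α A hA0
  have hκ0 : (κ : K) ≠ 0 := by
    intro h
    apply hκ
    apply RingOfIntegers.coe_injective
    rw [map_zero]
    exact h
  have he1 : e 1 (κ : K) ≠ 0 := by
    rw [map_ne_zero]
    exact hκ0
  -- parts of the norm
  obtain ⟨X, hX⟩ : ∃ X : ℤ × (Fin n → ℤ) → ℝ, ∀ a, X a =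
    ∑ i, |Real.log ‖σ i (gelS κ s a)‖| := ⟨_, fun _ => rfl⟩
  obtain ⟨W, hW⟩ : ∃ W : ℤ × (Fin n → ℤ) → ℝ, ∀ a, W a =
    ∑ j, |((a.1 * nn j + ∑ i, a.2 i * α i j : ℤ) : ℝ)| * Real.log (Ideal.absNorm (P j)) :=
    ⟨_, fun _ => rfl⟩
  have hnrm : ∀ a, nrmS σ P κ nn s α A a = 4 * X a + 4 * A * |(a.1 : ℝ)| + 4 * W a := by
    intro a
    rw [hX, hW]
    rfl
  have hX0 : ∀ a, 0 ≤ X a := by
    intro a
    rw [hX]
    exact Finset.sum_nonneg fun i _ => abs_nonneg _
  have hW0 : ∀ a, 0 ≤ W a := by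
    intro a
    rw [hW]
    exact Finset.sum_nonneg fun i _ => mul_nonneg (abs_nonneg _) (Real.log_natCast_nonneg _)
  have hXi : ∀ a i, |Real.log ‖σ i (gelS κ s a)‖| ≤ X a := by
    intro a i
    rw [hX]
    exact Finset.single_le_sum (f := fun i => |Real.log ‖σ i (gelS κ s a)‖|)
      (fun i _ => abs_nonneg _) (Finset.mem_univ i)
  have hAk : ∀ a : ℤ × (Fin n → ℤ), 0 ≤ A * |(a.1 : ℝ)| := fun a =>
    mul_nonneg hA0 (abs_nonneg _)
  -- coordinates
  have hcoo : ∀ a : ℤ × (Fin n → ℤ), nrmS σ P κ nn s α A a ≤ U →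
      ∀ i, |((a.2 i : ℤ) : ℝ)| ≤ Z := by
    intro a ha i
    refine le_trans ?_ hUZ
    rw [hnrm] at ha
    have h1 := hX0 a
    have h2 := hW0 a
    have h3 := hAk a
    have hk : |(a.1 : ℝ)| ≤ U := by
      have h4 : |(a.1 : ℝ)| ≤ A * |(a.1 : ℝ)| := le_mul_of_one_le_left (abs_nonneg _) hA
      nlinarith
    have hk0 : 0 ≤ |(a.1 : ℝ)| := abs_nonneg _
    have hsum1 : ∑ k, |Real.log ‖σ k (∏ i, ((s i : Kˣ) : K) ^ (a.2 i))‖| ≤
        X a + 3 * (U * S) := by
      have h5 : ∀ k, |Real.log ‖σ k (∏ i, ((s i : Kˣ) : K) ^ (a.2 i))‖| ≤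
          |Real.log ‖σ k (gelS κ s a)‖| + U * S := by
        intro k
        have h6 : gelS κ s a = (κ : K) ^ a.1 * ∏ i, ((s i : Kˣ) : K) ^ (a.2 i) := rfl
        have h7 : (∏ i, ((s i : Kˣ) : K) ^ (a.2 i)) ≠ 0 :=
          Finset.prod_ne_zero_iff.2 fun i _ => zpow_ne_zero _ (s i).ne_zero
        have h8 : Real.log ‖σ k (gelS κ s a)‖ = (a.1 : ℝ) * Real.log ‖σ k (κ : K)‖ +
            Real.log ‖σ k (∏ i, ((s i : Kˣ) : K) ^ (a.2 i))‖ := by
          rw [h6, map_mul, norm_mul, Real.log_mul, map_zpow₀, norm_zpow, Real.log_zpow]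
          · rw [norm_ne_zero_iff, map_ne_zero]
            exact zpow_ne_zero _ hκ0
          · rw [norm_ne_zero_iff, map_ne_zero]
            exact h7
        have h9 : Real.log ‖σ k (∏ i, ((s i : Kˣ) : K) ^ (a.2 i))‖ =
            Real.log ‖σ k (gelS κ s a)‖ - (a.1 : ℝ) * Real.log ‖σ k (κ : K)‖ := by
          rw [h8]
          ring
        rw [h9]
        refine (abs_sub _ _).trans ?_
        rw [abs_mul]
        have := mul_le_mul hk (hSκ k) (abs_nonneg _) (by linarith)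
        linarith
      calc ∑ k, |Real.log ‖σ k (∏ i, ((s i : Kˣ) : K) ^ (a.2 i))‖|
          ≤ ∑ k, (|Real.log ‖σ k (gelS κ s a)‖| + U * S) := Finset.sum_le_sum fun k _ => h5 k
        _ = X a + 3 * (U * S) := by
          rw [Finset.sum_add_distrib, hX]
          simp
    have hsum2 : ∑ j, |((∑ i, a.2 i * α i j : ℤ) : ℝ)| * Real.log (Ideal.absNorm (P j)) ≤
        W a + m * (U * S) := by
      have h5 : ∀ j, |((∑ i, a.2 i * α i j : ℤ) : ℝ)| * Real.log (Ideal.absNorm (P j)) ≤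
          |((a.1 * nn j + ∑ i, a.2 i * α i j : ℤ) : ℝ)| * Real.log (Ideal.absNorm (P j)) +
            U * S := by
        intro j
        have hl : 0 ≤ Real.log (Ideal.absNorm (P j)) := Real.log_natCast_nonneg _
        have h6 : |((∑ i, a.2 i * α i j : ℤ) : ℝ)| ≤
            |((a.1 * nn j + ∑ i, a.2 i * α i j : ℤ) : ℝ)| + |(a.1 : ℝ)| * (nn j : ℝ) := by
          have h7 : ((∑ i, a.2 i * α i j : ℤ) : ℝ) =
              ((a.1 * nn j + ∑ i, a.2 i * α i j : ℤ) : ℝ) - (a.1 : ℝ) * (nn j : ℝ) := by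
            push_cast
            ring
          rw [h7]
          refine (abs_sub _ _).trans ?_
          rw [abs_mul, Nat.abs_cast]
        have h8 := mul_le_mul_of_nonneg_right h6 hl
        have h9 : |(a.1 : ℝ)| * ((nn j : ℝ) * Real.log (Ideal.absNorm (P j))) ≤ U * S :=
          mul_le_mul hk (hSn j) (mul_nonneg (Nat.cast_nonneg _) hl) (by linarith)
        nlinarith
      calc ∑ j, |((∑ i, a.2 i * α i j : ℤ) : ℝ)| * Real.log (Ideal.absNorm (P j))
          ≤ ∑ j, (|((a.1 * nn j + ∑ i, a.2 i * α i j : ℤ) : ℝ)| *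
            Real.log (Ideal.absNorm (P j)) + U * S) := Finset.sum_le_sum fun j _ => h5 j
        _ = W a + m * (U * S) := by
          rw [Finset.sum_add_distrib, hW]
          simp
    have hfin := hCB a.2 i
    have hB0 : 0 ≤ B := by linarith
    have hm0 : (0 : ℝ) ≤ m := Nat.cast_nonneg m
    have hUS : 0 ≤ U * S := mul_nonneg (by linarith) hS
    have h10 : (∑ k, |Real.log ‖σ k (∏ i, ((s i : Kˣ) : K) ^ (a.2 i))‖|) +
        ∑ j, |((∑ i, a.2 i * α i j : ℤ) : ℝ)| * Real.log (Ideal.absNorm (P j)) ≤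
        (m + 4) * ((1 + S) * U) := by
      have h11 : X a + W a ≤ U := by nlinarith
      nlinarith
    calc |((a.2 i : ℤ) : ℝ)| ≤ B * ((∑ k, |Real.log ‖σ k (∏ i, ((s i : Kˣ) : K) ^ (a.2 i))‖|) +
        ∑ j, |((∑ i, a.2 i * α i j : ℤ) : ℝ)| * Real.log (Ideal.absNorm (P j))) := hfin
      _ ≤ B * ((m + 4) * ((1 + S) * U)) := mul_le_mul_of_nonneg_left h10 hB0
      _ = (m + 4) * B * (1 + S) * U := by ring
  have hkU : ∀ a : ℤ × (Fin n → ℤ), nrmS σ P κ nn s α A a ≤ U → |(a.1 : ℝ)| ≤ U := by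
    intro a ha
    rw [hnrm] at ha
    have h1 := hX0 a
    have h2 := hW0 a
    have h3 := hAk a
    have h4 : |(a.1 : ℝ)| ≤ A * |(a.1 : ℝ)| := le_mul_of_one_le_left (abs_nonneg _) hA
    nlinarith
  have hfin : {a : ℤ × (Fin n → ℤ) | nrmS σ P κ nn s α A a ≤ U}.Finite := by
    apply Set.Finite.subset (Set.Finite.prod (Set.finite_Icc (-⌊U⌋) ⌊U⌋)
      (Set.finite_Icc (fun _ : Fin n => -⌊Z⌋) (fun _ : Fin n => ⌊Z⌋)))
    intro a ha
    have h1 := abs_le.1 (hkU a ha)
    have h2 := fun i => abs_le.1 (hcoo a ha i)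
    have key : ∀ (x : ℝ) (k : ℤ), -x ≤ (k : ℝ) → (k : ℝ) ≤ x → -⌊x⌋ ≤ k ∧ k ≤ ⌊x⌋ := by
      intro x k h3 h4
      refine ⟨?_, Int.le_floor.2 h4⟩
      have : -k ≤ ⌊x⌋ := by
        apply Int.le_floor.2
        push_cast
        linarith
      omega
    refine ⟨?_, ?_⟩
    · exact key U a.1 h1.1 h1.2
    · exact ⟨fun i => (key Z (a.2 i) (h2 i).1 (h2 i).2).1,
        fun i => (key Z (a.2 i) (h2 i).1 (h2 i).2).2⟩
  refine ⟨hQ, hQ0, hp, hpQ, ?_, hT0, hT, hpu, hnadd, hnsmul, ?_, ?_, hcoo, hfin, ?_⟩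
  · intro h
    apply hne
    rw [div_eq_iff he1, one_mul] at h
    exact h
  · -- conj
    intro a τ
    rw [pdc_gel]
    obtain ⟨j2, hj2⟩ := hτ τ 2
    obtain ⟨j1, hj1⟩ := hτ τ 1
    rw [map_div₀, hj2, hj1, norm_div]
    have h1 : 0 < ‖σ j2 (gelS κ s a)‖ := by
      rw [norm_pos_iff, map_ne_zero]
      exact hx0 a
    have h2 : 0 < ‖σ j1 (gelS κ s a)‖ := by
      rw [norm_pos_iff, map_ne_zero]
      exact hx0 a
    rw [← Real.exp_log (div_pos h1 h2), Real.exp_le_exp, Real.log_div h1.ne' h2.ne', hnrm]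
    have h3 := hXi a j2
    have h4 := hXi a j1
    have h5 := le_abs_self (Real.log ‖σ j2 (gelS κ s a)‖)
    have h6 := neg_abs_le (Real.log ‖σ j1 (gelS κ s a)‖)
    have h7 := hX0 a
    have h8 := hW0 a
    have h9 := hAk a
    nlinarith
  · -- den
    intro a
    obtain ⟨q1, hq1⟩ : ∃ q1 : ℕ, q1 = Ideal.absNorm 𝔞 ^ a.1.natAbs *
      ∏ j, Ideal.absNorm (P j) ^ (a.1 * nn j + ∑ i, a.2 i * α i j).natAbs := ⟨_, rfl⟩
    obtain ⟨hq0, hi1, hi2⟩ := hGEL2 K κ hκ m n s P hPinj hP nn 𝔞 hspan α hs a q1 hq1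
    refine ⟨q1 ^ 2, by positivity, ?_, ?_⟩
    · have hq0' : (0 : ℝ) < q1 := by exact_mod_cast hq0
      have hN𝔞 : (Ideal.absNorm 𝔞 : ℝ) ≠ 0 := by
        have : Ideal.absNorm 𝔞 ≠ 0 := by
          intro h0
          rw [Ideal.absNorm_eq_zero_iff] at h0
          rw [h0, Ideal.bot_mul, Ideal.span_singleton_eq_bot] at hspan
          exact hκ hspan
        exact_mod_cast this
      have hNP : ∀ j, (Ideal.absNorm (P j) : ℝ) ≠ 0 := by
        intro j
        have : Ideal.absNorm (P j) ≠ 0 := by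
          intro h0
          rw [Ideal.absNorm_eq_zero_iff] at h0
          exact (hP j).2 h0
        exact_mod_cast this
      have hlog : Real.log q1 = |(a.1 : ℝ)| * Real.log (Ideal.absNorm 𝔞) + W a := by
        rw [hq1, hW]
        push_cast
        rw [Real.log_mul (pow_ne_zero _ hN𝔞)
          (Finset.prod_ne_zero_iff.2 fun j _ => pow_ne_zero _ (hNP j)), Real.log_pow,
          Real.log_prod (fun j _ => pow_ne_zero _ (hNP j))]
        congr 1
        · congr 1
          rw [Nat.cast_natAbs, Int.cast_abs]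
        · apply Finset.sum_congr rfl
          intro j _
          rw [Real.log_pow]
          congr 1
          rw [Nat.cast_natAbs, Int.cast_abs]
          push_cast
          rfl
      push_cast
      have h1 : (q1 : ℝ) ^ 2 = Real.exp (2 * Real.log q1) := by
        rw [mul_comm, Real.exp_mul, Real.exp_log hq0']
        norm_cast
      rw [h1, Real.exp_le_exp, hlog, hnrm]
      have h7 := hX0 a
      have h8 := hW0 a
      have h9 := hAk a
      have h10 : |(a.1 : ℝ)| * Real.log (Ideal.absNorm 𝔞) ≤ |(a.1 : ℝ)| * A :=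
        mul_le_mul_of_nonneg_left hA2 (abs_nonneg _)
      nlinarith
    · rw [pdc_gel]
      have h1 : ((q1 ^ 2 : ℕ) : L) * (e 2 (gelS κ s a) / e 1 (gelS κ s a)) =
          e 2 ((q1 : K) * gelS κ s a) * e 1 ((q1 : K) * (gelS κ s a)⁻¹) := by
        rw [map_mul, map_mul, map_inv₀, map_natCast, map_natCast]
        push_cast
        rw [div_eq_mul_inv]
        ring
      rw [h1]
      apply IsIntegral.mul
      · exact IsIntegral.map ((e 2).toIntAlgHom) hi1
      · exact IsIntegral.map ((e 1).toIntAlgHom) hi2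
  · -- ker
    have hratl : ∀ a : ℤ × (Fin n → ℤ), e 2 (gelS κ s a) / e 1 (gelS κ s a) = 1 →
        ∃ q : ℚ, gelS κ s a = algebraMap ℚ K q := by
      intro a ha
      have h1 : e 1 (gelS κ s a) ≠ 0 := by
        rw [map_ne_zero]
        exact hx0 a
      rw [div_eq_iff h1, one_mul] at ha
      obtain ⟨τ⟩ : Nonempty (L →+* ℂ) := inferInstance
      have hne2 : τ.comp (e 2) ≠ τ.comp (e 1) := by
        intro h
        have h2 : e 2 = e 1 := by
          ext x
          have h3 := RingHom.congr_fun h x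
          exact τ.injective h3
        exact absurd (he h2) (by decide)
      refine (hKER K hK3 _ _ hne2).1 _ ?_
      show τ (e 2 _) = τ (e 1 _)
      rw [ha]
    refine le_trans ?_ ((pdc_int_le (U / 4) (by linarith)).trans (by linarith))
    have hfin2 : {k : ℤ | |(k : ℝ)| ≤ U / 4}.Finite := by
      apply Set.Finite.subset (Set.finite_Icc (-⌊U⌋) ⌊U⌋)
      intro k hk
      have hk' : |(k : ℝ)| ≤ U / 4 := hk
      rw [abs_le] at hk'
      refine ⟨?_, Int.le_floor.2 (by linarith)⟩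
      have : -k ≤ ⌊U⌋ := by
        apply Int.le_floor.2
        push_cast
        linarith
      omega
    rw [Nat.cast_le]
    refine Set.ncard_le_ncard_of_injOn (fun a => a.1) ?_ ?_ hfin2
    · rintro a ⟨ha, -⟩
      rw [hnrm] at ha
      have h1 := hX0 a
      have h2 := hW0 a
      have h4 : |(a.1 : ℝ)| ≤ A * |(a.1 : ℝ)| := le_mul_of_one_le_left (abs_nonneg _) hA
      show |(a.1 : ℝ)| ≤ U / 4
      nlinarith
    · rintro a ⟨-, ha⟩ b ⟨-, hb⟩ hab
      have hab' : a.1 = b.1 := hab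
      rw [pdc_gel] at ha hb
      obtain ⟨qa, hqa⟩ := hratl a ha
      obtain ⟨qb, hqb⟩ := hratl b hb
      have hprod : ((∏ i, s i ^ (a.2 i - b.2 i) : Kˣ) : K) = algebraMap ℚ K (qa / qb) := by
        rw [map_div₀, ← hqa, ← hqb]
        have h6 : gelS κ s a = (κ : K) ^ a.1 * ∏ i, ((s i : Kˣ) : K) ^ (a.2 i) := rfl
        have h7 : gelS κ s b = (κ : K) ^ b.1 * ∏ i, ((s i : Kˣ) : K) ^ (b.2 i) := rfl
        rw [h6, h7, hab', mul_div_mul_left _ _ (zpow_ne_zero _ hκ0), ← Finset.prod_div_distrib,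
          Units.coe_prod]
        apply Finset.prod_congr rfl
        intro i _
        rw [Units.val_zpow_eq_zpow_val, zpow_sub₀ (s i).ne_zero]
      have hSU := pdc_SU_prod hSUF P hPinj hP s α hs (fun i => a.2 i - b.2 i)
      have h0 := hrat _ _ _ hprod hSU
      have hSU2 := hSU
      rw [h0] at hSU2
      obtain ⟨hmul, hinv, -, hone, -, -⟩ := hSUF K m P hPinj hP
      obtain ⟨u, hu⟩ := (hone _).1 hSU2
      have hq := pdc_rat_unit u (qa / qb) (by rw [← hu]; exact hprod)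
      have hlog0 : ∀ k, Real.log ‖σ k (∏ i, ((s i : Kˣ) : K) ^ (a.2 i - b.2 i))‖ = 0 := by
        intro k
        have h8 : (∏ i, ((s i : Kˣ) : K) ^ (a.2 i - b.2 i)) = algebraMap ℚ K (qa / qb) := by
          rw [← hprod, Units.coe_prod]
          apply Finset.prod_congr rfl
          intro i _
          rw [Units.val_zpow_eq_zpow_val]
        rw [h8]
        rcases hq with hq | hq
        · rw [hq, map_one, map_one, norm_one, Real.log_one]
        · rw [hq, map_neg, map_one, map_neg, map_one, norm_neg, norm_one, Real.log_one]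
      apply Prod.ext hab'
      funext i
      have hc := hCB (fun i => a.2 i - b.2 i) i
      have h9 : (∑ k, |Real.log ‖σ k (∏ i, ((s i : Kˣ) : K) ^ (a.2 i - b.2 i))‖|) = 0 := by
        apply Finset.sum_eq_zero
        intro k _
        rw [hlog0, abs_zero]
      have h10 : (∑ j, |((∑ i, (a.2 i - b.2 i) * α i j : ℤ) : ℝ)| *
          Real.log (Ideal.absNorm (P j))) = 0 := by
        apply Finset.sum_eq_zero
        intro j _
        have h11 : (∑ i, (a.2 i - b.2 i) * α i j) = 0 := congrFun h0 j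
        rw [h11]
        simp
      rw [h9, h10, add_zero, mul_zero] at hc
      have h12 : ((a.2 i - b.2 i : ℤ) : ℝ) = 0 := abs_eq_zero.1 (le_antisymm hc (abs_nonneg _))
      have h13 : a.2 i - b.2 i = 0 := by exact_mod_cast h12
      omega

end Pool.Helper99.SZ
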