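import Pool.Agent.Helper99.SZ.Stmts

set_option autoImplicit false

/-! # The theorem on `P`-adic linear forms from the recursion (module PMN) -/

namespace Pool.Helper99.SZ

open NumberField

theorem pmn_all (h0 : ST_PR0) (hS : ST_PRS) (n D : ℕ) (v : ℕ) :
    ∃ C : ℝ, 1 ≤ C ∧ ∃ A : ℕ, PRst n D v C A := by
  induction v using Nat.strong_induction_on with
  | _ v ih =>
    rcases Nat.eq_zero_or_pos v with h | h
    · rw [h]
      exact h0 n D
    · exact hS n D v h ih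

theorem pmn_C (B : ℝ) (hB : 1 ≤ B) (A : ℕ) :
    ∃ C : ℝ, 1 ≤ C ∧ B * (Real.log C + 1 + A) ^ A ≤ C := by
  have h1 := Real.isLittleO_pow_log_id_atTop (n := A)
  have hB0 : 0 < B := by linarith
  have h2 := h1.def (c := 1 / (B * 2 ^ A)) (by positivity)
  have h3 := (h2.and ((Filter.eventually_ge_atTop (1 : ℝ)).and
    (Real.tendsto_log_atTop.eventually_ge_atTop (1 + (A : ℝ))))).exists
  obtain ⟨C, hC1, hC2, hC3⟩ := h3
  refine ⟨C, hC2, ?_⟩
  have hlog : 0 ≤ Real.log C := by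
    have : (0 : ℝ) ≤ A := Nat.cast_nonneg A
    linarith
  rw [id, Real.norm_of_nonneg (pow_nonneg hlog A), Real.norm_of_nonneg (by linarith)] at hC1
  have h4 : (Real.log C + 1 + A) ^ A ≤ (2 * Real.log C) ^ A :=
    pow_le_pow_left₀ (by positivity) (by linarith) A
  have h5 : B * (Real.log C + 1 + A) ^ A ≤ B * (2 * Real.log C) ^ A :=
    mul_le_mul_of_nonneg_left h4 hB0.le
  refine h5.trans ?_
  rw [mul_pow, ← mul_assoc]
  have h6 : B * 2 ^ A * Real.log C ^ A ≤ B * 2 ^ A * (1 / (B * 2 ^ A) * C) :=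
    mul_le_mul_of_nonneg_left hC1 (by positivity)
  refine h6.trans (le_of_eq ?_)
  rw [← mul_assoc, mul_one_div_cancel (by positivity), one_mul]

theorem st_PMN (h0 : ST_PR0) (hS : ST_PRS) : ST_PMN := by
  intro n D
  obtain ⟨C', hC', A, hA⟩ := pmn_all h0 hS n D n
  have hC0 : 0 < C' := by linarith
  obtain ⟨C, hC1, hC2⟩ := pmn_C (C' ^ (n + 2)) (one_le_pow₀ hC') A
  refine ⟨C, hC1, A, ?_⟩
  intro L _ _ hL P p g0 g nrm X U Z ℓ T hX hZ hℓ hU hlX hlZ hlp hPD hcount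
  have hA0 : (0 : ℝ) ≤ A := Nat.cast_nonneg A
  have hlC : 0 ≤ Real.log C := Real.log_nonneg hC1
  have hc1 : 1 ≤ Real.log C + 1 + A := by linarith
  have hℓ0 : 0 < ℓ := by linarith
  have hX0 : 0 < X := by linarith
  have hCp : 0 < C := by linarith
  have hℓA : 1 ≤ ℓ ^ A := one_le_pow₀ hℓ
  have hℓA0 : 0 < ℓ ^ A := by linarith
  have hcA : 1 ≤ (Real.log C + 1 + A) ^ A := one_le_pow₀ hc1
  have hU1 : 1 ≤ U := by
    rw [hU]
    exact one_le_mul_of_one_le_of_one_le (one_le_mul_of_one_le_of_one_le hC1 hX) hℓA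
  have hU0 : 0 < U := by linarith
  have hℓ' : ℓ ≤ (Real.log C + 1 + A) * ℓ := le_mul_of_one_le_left hℓ0.le hc1
  have hlU : Real.log U ≤ (Real.log C + 1 + A) * ℓ := by
    rw [hU, Real.log_mul (by positivity) hℓA0.ne', Real.log_mul hCp.ne' hX0.ne', Real.log_pow]
    have e1 : Real.log C ≤ Real.log C * ℓ := le_mul_of_one_le_right hlC hℓ
    have e2 : (A : ℝ) * Real.log ℓ ≤ A * ℓ :=
      mul_le_mul_of_nonneg_left ((Real.log_le_sub_one_of_pos hℓ0).trans (by linarith)) hA0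
    linarith
  have hCC : C' ≤ C := by
    have e1 : C' ≤ C' ^ (n + 2) := by
      calc C' = C' ^ 1 := (pow_one _).symm
        _ ≤ C' ^ (n + 2) := pow_le_pow_right₀ hC' (by omega)
    have e2 : C' ^ (n + 2) ≤ C' ^ (n + 2) * (Real.log C + 1 + A) ^ A :=
      le_mul_of_one_le_right (by positivity) hcA
    linarith
  have hρ1 : X ≤ U / C' := by
    rw [le_div_iff₀ hC0, hU]
    have e1 : X * C' ≤ X * C := mul_le_mul_of_nonneg_left hCC hX0.le
    have e2 : C * X ≤ C * X * ℓ ^ A := le_mul_of_one_le_right (by positivity) hℓA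
    linarith
  have hρ2 : U / C' ≤ U := div_le_self hU0.le hC'
  have hcnt := hcount (U / C') hρ1 hρ2
  have hset : {a : ℤ × (Fin n → ℤ) | nrm a ≤ U / C' ∧
      (fun i => ((a.2 i : ℤ) : ℚ)) ∈ (⊤ : Submodule ℚ (Fin n → ℚ))} =
      {a : ℤ × (Fin n → ℤ) | nrm a ≤ U / C'} := by
    ext a
    simp only [Set.mem_setOf_eq, Submodule.mem_top, and_true]
  have hkey : C' * U ^ n * ((Real.log C + 1 + A) * ℓ) ^ A ≤
      ({a : ℤ × (Fin n → ℤ) | nrm a ≤ U / C'}.ncard : ℝ) := by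
    have e1 : X * (C' * U ^ n * ((Real.log C + 1 + A) * ℓ) ^ A) ≤ (U / C') ^ (n + 1) := by
      rw [div_pow, le_div_iff₀ (by positivity), mul_pow, pow_succ U n]
      have e2 : X * (C' * U ^ n * ((Real.log C + 1 + A) ^ A * ℓ ^ A)) * C' ^ (n + 1) =
          U ^ n * (X * ℓ ^ A) * (C' ^ (n + 2) * (Real.log C + 1 + A) ^ A) := by ring
      have e3 : U ^ n * U = U ^ n * (X * ℓ ^ A) * C := by
        nth_rewrite 2 [hU]
        ring
      rw [e2, e3]
      exact mul_le_mul_of_nonneg_left hC2 (by positivity)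
    have e4 := e1.trans hcnt
    exact le_of_mul_le_mul_left e4 hX0
  have hfin := hA L hL P p g0 g nrm U Z ((Real.log C + 1 + A) * ℓ) T hU1 hZ (hℓ.trans hℓ') hlU
    (hlZ.trans hℓ') (hlp.trans hℓ') hPD ⊤ (by simp) (by rw [hset]; exact hkey)
  refine hfin.trans ?_
  have e5 : C' * (Real.log C + 1 + A) ^ A ≤ C := by
    refine le_trans (mul_le_mul_of_nonneg_right ?_ (by positivity)) hC2
    calc C' = C' ^ 1 := (pow_one _).symm
      _ ≤ C' ^ (n + 2) := pow_le_pow_right₀ hC' (by omega)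
  calc C' * U * ((Real.log C + 1 + A) * ℓ) ^ A = (C' * (Real.log C + 1 + A) ^ A) * (U * ℓ ^ A) := by
        rw [mul_pow]
        ring
    _ ≤ C * (U * ℓ ^ A) := mul_le_mul_of_nonneg_right e5 (by positivity)
    _ = C * U * ℓ ^ A := by ring

end Pool.Helper99.SZ
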