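import Pool.Agent.Helper99.SZ.Stmts2

set_option autoImplicit false

/-! Module RC2: the energy recursion of the theorem on `P`-adic linear forms. -/

namespace Pool.Helper99.SZ

open NumberField

/-- start of the recursion: `(1, 0)` has small norm -/
theorem rc2_start (hDVB : ST_DVB) (hPLV : ST_PLV) {L : Type} [Field L] [NumberField L] {D : ℕ}
    (hD : Module.finrank ℚ L ≤ D) {P : Ideal (𝓞 L)} {p n : ℕ} {g0 : L} {g : Fin n → L}
    {nrm : ℤ × (Fin n → ℤ) → ℝ} {U Z : ℝ} {T : ℕ} (hU : 1 ≤ U)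
    (hPD : PD L P p n g0 g nrm U Z T)
    (h10 : nrm ((1 : ℤ), (0 : Fin n → ℤ)) ≤ U) : (T : ℝ) * Real.log p ≤ 3 * D * U := by
  have hval : g0 ^ ((1 : ℤ), (0 : Fin n → ℤ)).1 * ∏ i, g i ^ (((1 : ℤ), (0 : Fin n → ℤ)).2 i) =
      g0 := by simp
  obtain ⟨q, hq0, hqU, hqi⟩ := hPD.den ((1 : ℤ), (0 : Fin n → ℤ))
  rw [hval] at hqi
  have hqU' : (q : ℝ) ≤ Real.exp U := le_trans hqU (Real.exp_le_exp.2 h10)
  obtain ⟨_, _, hadd, hnegD, hmulD, _, _, _, hmem⟩ := hDVB L P hPD.pr hPD.bot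
  have hint : IsIntegral ℤ ((q : L) * (g0 - 1)) := by
    have h4 : (q : L) * (g0 - 1) = (q : L) * g0 - (q : L) := by ring
    rw [h4]
    exact hqi.sub (isIntegral_natCast (R := ℤ) q)
  obtain ⟨w, hw⟩ : ∃ w : 𝓞 L, (w : L) = (q : L) * (g0 - 1) := ⟨⟨_, hint⟩, rfl⟩
  have hq1 : (q : L) ≠ 0 := Nat.cast_ne_zero.2 hq0.ne'
  have hw0 : w ≠ 0 := by
    intro h4
    rw [h4] at hw
    have h5 : (q : L) * (g0 - 1) = 0 := by rw [← hw]; simp
    rcases mul_eq_zero.1 h5 with h6 | h6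
    · exact hq1 h6
    · exact hPD.ne0 (sub_eq_zero.1 h6)
  have hqD : Dv P 0 (q : L) := by
    have h4 := (hDVB L P hPD.pr hPD.bot).1 (q : 𝓞 L)
    simpa using h4
  have hwD : Dv P T (w : L) := by
    have h4 := hmulD 0 T (q : L) (g0 - 1) hqD hPD.T0
    rw [zero_add, ← hw] at h4
    exact h4
  have hwP : w ∈ P ^ T := hmem T w hwD
  have hconj : ∀ τ : L →+* ℂ, ‖τ (w : L)‖ ≤ Real.exp (3 * U) := by
    intro τ
    rw [hw, map_mul, norm_mul, map_natCast, map_sub, map_one]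
    have h4 := hPD.conj ((1 : ℤ), (0 : Fin n → ℤ)) τ
    rw [hval] at h4
    have h5 : ‖τ g0‖ ≤ Real.exp U := le_trans h4 (Real.exp_le_exp.2 h10)
    have h6 : ‖τ g0 - 1‖ ≤ Real.exp U + 1 := by
      refine le_trans (norm_sub_le _ _) ?_
      simpa using h5
    have h7 : ‖(q : ℂ)‖ = (q : ℝ) := by simp
    rw [h7]
    have h8 : (2 : ℝ) ≤ Real.exp U := by
      have := Real.add_one_le_exp U
      linarith
    have h9 : Real.exp (3 * U) = Real.exp U * (Real.exp U * Real.exp U) := by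
      rw [← Real.exp_add, ← Real.exp_add]
      ring_nf
    rw [h9]
    have h11 : Real.exp U + 1 ≤ Real.exp U * Real.exp U := by nlinarith
    exact mul_le_mul hqU' (le_trans h6 h11) (norm_nonneg _) (by linarith)
  have h1e : (1 : ℝ) ≤ Real.exp (3 * U) := Real.one_le_exp (by linarith)
  have hfinal := hPLV L P hPD.pr hPD.bot p hPD.pp hPD.pm T w hw0 hwP (Real.exp (3 * U)) h1e hconj
  rw [Real.log_exp] at hfinal
  have hDr : (Module.finrank ℚ L : ℝ) ≤ D := by exact_mod_cast hD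
  have h12 : (Module.finrank ℚ L : ℝ) * (3 * U) ≤ D * (3 * U) :=
    mul_le_mul_of_nonneg_right hDr (by linarith)
  linarith

/-- a unit congruent to one is not zero -/
theorem rc2_ne {L : Type} [Field L] [NumberField L] {P : Ideal (𝓞 L)} {t : ℕ} (ht : 1 ≤ t) {x : L}
    (h : Dv P t (x - 1)) : x ≠ 0 := by
  rintro rfl
  obtain ⟨a, b, hb, ha, hab⟩ := h
  apply hb
  have h1 : a ∈ P := Ideal.pow_le_self (by omega) ha
  have h2 : b = -a := by
    apply RingOfIntegers.coe_injective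
    rw [map_neg]
    change (b : L) = -(a : L)
    rw [← hab]
    ring
  rw [h2]
  exact neg_mem h1

/-- the vector of rational coordinates -/
def rc2_cq (n : ℕ) : ℤ × (Fin n → ℤ) →+ (Fin n → ℚ) where
  toFun a := fun i => ((a.2 i : ℤ) : ℚ)
  map_zero' := by
    funext i
    simp
  map_add' a b := by
    funext i
    simp

theorem rc2_cq_apply {n : ℕ} (a : ℤ × (Fin n → ℤ)) :
    rc2_cq n a = fun i => ((a.2 i : ℤ) : ℚ) := rfl

theorem rc2_sum {G : Type} [AddCommGroup G] {nrm : G → ℝ} (h0 : nrm 0 = 0)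
    (hadd : ∀ a b, nrm (a + b) ≤ nrm a + nrm b) {R : ℝ}
    (l : List G) (hl : ∀ a ∈ l, nrm a ≤ R) : nrm l.sum ≤ l.length * R := by
  induction l with
  | nil =>
    simp only [List.sum_nil, List.length_nil, Nat.cast_zero, zero_mul]
    exact h0.le
  | cons a l ih =>
    have h1 := ih fun b hb => hl b (List.mem_cons_of_mem a hb)
    have h3 := hl a List.mem_cons_self
    rw [List.sum_cons, List.length_cons]
    refine (hadd _ _).trans ?_
    push_cast
    linarith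

theorem rc2_fact {n d : ℕ} (hd : d ≤ n) : (d + 1).factorial ≤ (n + 1) ^ d := by
  induction d with
  | zero => simp
  | succ d ih =>
    rw [Nat.factorial_succ, pow_succ, mul_comm]
    exact Nat.mul_le_mul (ih (by omega)) (by omega)

/-- the constant of one step -/
theorem rc2_const {n K Lc d : ℕ} (hd : d ≤ n) (hd1 : 1 ≤ d) :
    (((d + 1).factorial * (K ^ d * Lc) : ℕ) : ℝ) ≤ (4 * ((n : ℝ) + 1) * K * Lc) ^ d := by
  have h1 : (d + 1).factorial * (K ^ d * Lc) ≤ (4 * (n + 1) * K * Lc) ^ d := by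
    calc (d + 1).factorial * (K ^ d * Lc) ≤ (n + 1) ^ d * (K ^ d * Lc ^ d) := by
          refine Nat.mul_le_mul (rc2_fact hd) (Nat.mul_le_mul_left _ ?_)
          exact Nat.le_self_pow (by omega) Lc
      _ ≤ 4 ^ d * ((n + 1) ^ d * (K ^ d * Lc ^ d)) :=
          Nat.le_mul_of_pos_left _ (by positivity)
      _ = (4 * (n + 1) * K * Lc) ^ d := by
          rw [mul_pow, mul_pow, mul_pow]
          ring
  exact_mod_cast h1

theorem rc2_num {E M F G x : ℝ} {a b : ℕ} (hab : a ≤ b) (hG : 1 ≤ G) (hF : 0 ≤ F)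
    (h1 : 2 * G ^ b * x ≤ E) (h2 : E ≤ M * F) (h3 : M ≤ G ^ (b - a)) :
    2 * G ^ a * x ≤ F := by
  have hG0 : 0 < G ^ (b - a) := by positivity
  have e : G ^ b = G ^ (b - a) * G ^ a := by
    rw [← pow_add]
    congr 1
    omega
  have h4 : G ^ (b - a) * (2 * G ^ a * x) ≤ G ^ (b - a) * F := by
    calc G ^ (b - a) * (2 * G ^ a * x) = 2 * G ^ b * x := by rw [e]; ring
      _ ≤ M * F := h1.trans h2
      _ ≤ G ^ (b - a) * F := mul_le_mul_of_nonneg_right h3 hF
  exact le_of_mul_le_mul_left h4 hG0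

theorem rc2_num2 {n D K Lc v : ℕ} {U S E F : ℝ} (hv : 1 ≤ v) (hD : 1 ≤ D) (hU : 1 ≤ U)
    (hS : 1 ≤ S) (hL : 1 ≤ Lc) (hK : 2000 * ((n : ℝ) + 1) * D * U ≤ K)
    (h1 : 2 * (4 * ((n : ℝ) + 1) * K * Lc) ^ v * S ≤ E) (h2 : E ≤ Lc * F)
    (h3 : F ≤ S * (2 * U + 1)) : False := by
  have hD' : (1 : ℝ) ≤ D := by exact_mod_cast hD
  have hL' : (1 : ℝ) ≤ Lc := by exact_mod_cast hL
  have hn : (1 : ℝ) ≤ (n : ℝ) + 1 := by
    have : (0 : ℝ) ≤ n := Nat.cast_nonneg n
    linarith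
  have h4 : 2000 * U ≤ K := by
    refine le_trans ?_ hK
    have : 1 * 1 ≤ ((n : ℝ) + 1) * D := mul_le_mul hn hD' (by norm_num) (by linarith)
    nlinarith
  have h5 : 4 * (K : ℝ) * Lc ≤ 4 * ((n : ℝ) + 1) * K * Lc := by
    have h0 : 0 ≤ 4 * (K : ℝ) * Lc := by positivity
    nlinarith
  have hG1 : 1 ≤ 4 * ((n : ℝ) + 1) * K * Lc := by nlinarith
  have h6 : 4 * ((n : ℝ) + 1) * K * Lc ≤ (4 * ((n : ℝ) + 1) * K * Lc) ^ v :=
    le_self_pow₀ hG1 (by omega)
  have h7 : 2 * (8000 * U * Lc) * S ≤ 2 * (4 * ((n : ℝ) + 1) * K * Lc) ^ v * S := by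
    have : 8000 * U * Lc ≤ (4 * ((n : ℝ) + 1) * K * Lc) ^ v := by
      refine le_trans ?_ h6
      refine le_trans ?_ h5
      nlinarith
    have h8 : 0 ≤ S := by linarith
    nlinarith
  have h8 : E ≤ Lc * (S * (2 * U + 1)) :=
    h2.trans (mul_le_mul_of_nonneg_left h3 (by linarith))
  have h9 : 1 ≤ Lc * S := one_le_mul_of_one_le_of_one_le hL' hS
  have h10 : 2 * (8000 * U * Lc) * S ≤ Lc * (S * (2 * U + 1)) := h7.trans (h1.trans h8)
  have h11 : 0 < (Lc : ℝ) * S := by linarith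
  nlinarith

theorem st_RC2 (hJEX : ST_JEX) (hPN2 : ST_PN2) (hZV2 : ST_ZV2) (hENG : ST_ENG) (hDVB : ST_DVB)
    (hPLV : ST_PLV) : ST_RC2 := by
  classical
  intro n D hD1 L _ _ hL P p g0 g nrm U Z ℓ ρ T hρ hρU hZ hℓ hlZ hlp hPD hOD K Lc hK hLc hKl v
  have hn : (0 : ℝ) ≤ n := Nat.cast_nonneg n
  have hn1 : (1 : ℝ) ≤ (n : ℝ) + 1 := by linarith
  have hD1' : (1 : ℝ) ≤ D := by exact_mod_cast hD1
  have hρU2 : 4 * ρ ≤ U := by
    refine le_trans ?_ hρU
    nlinarith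
  have hU : 1 ≤ U := by linarith
  have hlp0 : 0 ≤ Real.log p := Real.log_nonneg (by exact_mod_cast hPD.pp.one_le)
  have hDU : 0 ≤ 3 * (D : ℝ) * U := by positivity
  have hnD : 1 ≤ ((n : ℝ) + 1) * D := one_le_mul_of_one_le_of_one_le hn1 hD1'
  have hK1 : 1 ≤ K := by
    have h1 : 1 ≤ ((n : ℝ) + 1) * D * U := one_le_mul_of_one_le_of_one_le hnD hU
    have : (1 : ℝ) ≤ K := by linarith
    exact_mod_cast this
  have hLc1 : 1 ≤ Lc := by
    have h1 : 1 ≤ ((n : ℝ) + 1) * D * ℓ := one_le_mul_of_one_le_of_one_le hnD hℓ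
    have : (1 : ℝ) ≤ Lc := by linarith
    exact_mod_cast this
  have hn0 : nrm 0 = 0 := by
    have := hPD.smul 0 0
    rw [smul_zero] at this
    rw [this]
    simp
  have hneg : ∀ a, nrm (-a) = nrm a := by
    intro a
    have := hPD.smul (-1) a
    rw [neg_one_smul] at this
    rw [this]
    simp
  have hnn : ∀ a, 0 ≤ nrm a := by
    intro a
    have h1 := hPD.add a (-a)
    rw [add_neg_cancel, hn0, hneg] at h1
    linarith
  have hdiff : ∀ a b, nrm a ≤ ρ → nrm b ≤ ρ → nrm (a - b) ≤ 2 * ρ := by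
    intro a b ha hb
    have e2 := hPD.add a (-b)
    rw [hneg, ← sub_eq_add_neg] at e2
    linarith
  have hfinρ : {a : ℤ × (Fin n → ℤ) | nrm a ≤ ρ}.Finite :=
    hPD.fin.subset fun a ha => le_trans (show nrm a ≤ ρ from ha) (by linarith)
  obtain ⟨S, hS⟩ : ∃ S : Finset (ℤ × (Fin n → ℤ)), S = hfinρ.toFinset := ⟨_, rfl⟩
  have hSm : ∀ a, a ∈ S ↔ nrm a ≤ ρ := by
    intro a
    rw [hS, Set.Finite.mem_toFinset]
    rfl
  have h0S : (0 : ℤ × (Fin n → ℤ)) ∈ S := by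
    rw [hSm, hn0]
    linarith
  have hS1 : 1 ≤ S.card := Finset.card_pos.2 ⟨0, h0S⟩
  have hS1' : (1 : ℝ) ≤ S.card := by exact_mod_cast hS1
  have hSc : ({a : ℤ × (Fin n → ℤ) | nrm a ≤ ρ}.ncard : ℝ) = S.card := by
    rw [Set.ncard_eq_toFinset_card _ hfinρ, ← hS]
  rw [hSc]
  have hprodfin : ∀ Q : (ℤ × (Fin n → ℤ)) × (ℤ × (Fin n → ℤ)) → Prop,
      {z : (ℤ × (Fin n → ℤ)) × (ℤ × (Fin n → ℤ)) | z.1 ∈ S ∧ z.2 ∈ S ∧ Q z}.Finite := by
    intro Q
    refine (S ×ˢ S).finite_toSet.subset ?_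
    rintro z ⟨h1, h2, -⟩
    rw [Finset.mem_coe, Finset.mem_product]
    exact ⟨h1, h2⟩
  induction v using Nat.strong_induction_on with
  | _ v ih =>
    intro V hV hcount
    let GV : AddSubgroup (ℤ × (Fin n → ℤ)) := V.toAddSubgroup.comap (rc2_cq n)
    have hGV : ∀ a, a ∈ GV ↔ rc2_cq n a ∈ V := fun a => Iff.rfl
    have hsetV : {z : (ℤ × (Fin n → ℤ)) × (ℤ × (Fin n → ℤ)) | nrm z.1 ≤ ρ ∧ nrm z.2 ≤ ρ ∧
        (fun i => (((z.1 - z.2).2 i : ℤ) : ℚ)) ∈ V} =
        {z | z.1 ∈ S ∧ z.2 ∈ S ∧ z.1 - z.2 ∈ GV} := by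
      ext z
      rw [Set.mem_ofPred_eq, Set.mem_ofPred_eq, hSm, hSm]
      rfl
    rw [hsetV] at hcount
    rcases Nat.eq_zero_or_pos v with hv0 | hv1
    · -- dimension zero
      subst hv0
      rw [pow_zero, mul_one] at hcount
      have hVbot : V = ⊥ := Submodule.finrank_eq_zero.1 hV
      obtain ⟨x, y, hx, hy, hxy, hne⟩ : ∃ x y : ℤ × (Fin n → ℤ), x ∈ S ∧ y ∈ S ∧
          x - y ∈ GV ∧ x ≠ y := by
        by_contra hcon
        push Not at hcon
        have h1 : {z : (ℤ × (Fin n → ℤ)) × (ℤ × (Fin n → ℤ)) |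
            z.1 ∈ S ∧ z.2 ∈ S ∧ z.1 - z.2 ∈ GV} ⊆ ((S.image fun a => (a, a) :
              Finset ((ℤ × (Fin n → ℤ)) × (ℤ × (Fin n → ℤ)))) : Set _) := by
          rintro ⟨x, y⟩ ⟨h1, h2, h3⟩
          have h4 := hcon x y h1 h2 h3
          rw [Finset.mem_coe, Finset.mem_image]
          exact ⟨x, h1, by rw [← h4]⟩
        have h2 := Set.ncard_le_ncard h1 (Finset.finite_toSet _)
        rw [Set.ncard_coe_finset] at h2
        have h3 : (S.image fun a => (a, a) :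
            Finset ((ℤ × (Fin n → ℤ)) × (ℤ × (Fin n → ℤ)))).card ≤ S.card := Finset.card_image_le
        have h4 : (({z : (ℤ × (Fin n → ℤ)) × (ℤ × (Fin n → ℤ)) |
            z.1 ∈ S ∧ z.2 ∈ S ∧ z.1 - z.2 ∈ GV}.ncard : ℕ) : ℝ) ≤ S.card := by
          exact_mod_cast h2.trans h3
        linarith
      have h2 : (x - y).2 = 0 := by
        rw [hGV, hVbot, Submodule.mem_bot, rc2_cq_apply] at hxy
        funext i
        have h5 : (((x - y).2 i : ℤ) : ℚ) = 0 := congrFun hxy i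
        exact Int.cast_eq_zero.1 h5
      have hxy1 : (x - y).1 ≠ 0 := by
        intro h4
        apply hne
        rw [← sub_eq_zero]
        exact Prod.ext h4 h2
      have hsub : x - y = ((x - y).1) • ((1 : ℤ), (0 : Fin n → ℤ)) := by
        apply Prod.ext
        · simp
        · rw [h2]
          simp
      have h10 : nrm ((1 : ℤ), (0 : Fin n → ℤ)) ≤ U := by
        have h4 := hdiff x y ((hSm x).1 hx) ((hSm y).1 hy)
        rw [hsub, hPD.smul] at h4
        have h5 : (1 : ℝ) ≤ |(((x - y).1 : ℤ) : ℝ)| := by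
          have h6 : (1 : ℤ) ≤ |(x - y).1| := Int.one_le_abs hxy1
          exact_mod_cast h6
        have h7 := hnn ((1 : ℤ), (0 : Fin n → ℤ))
        nlinarith
      have h11 := rc2_start hDVB hPLV hL hU hPD h10
      have h12 : 0 ≤ (K : ℝ) * Lc * ℓ := by positivity
      linarith
    -- positive dimension
    have hvn : v ≤ n := by
      have := Submodule.finrank_le V
      rw [hV, Module.finrank_fin_fun] at this
      exact this
    have hvn' : (v : ℝ) ≤ (n : ℝ) + 1 := by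
      have : (v : ℝ) ≤ n := by exact_mod_cast hvn
      linarith
    by_cases hTK : T ≤ K * Lc
    · have h1 : (T : ℝ) ≤ K * Lc := by exact_mod_cast hTK
      have h2 : (T : ℝ) * Real.log p ≤ K * Lc * ℓ := mul_le_mul h1 hlp hlp0 (by positivity)
      linarith
    obtain ⟨J, hJ1, hJ2⟩ := hJEX n v V hV
    obtain ⟨x, hx0, hx⟩ : ∃ x : Sx v K × Fin Lc → L, x ≠ 0 ∧
        ∀ a : ℤ × (Fin n → ℤ), nrm a ≤ U → (fun i => ((a.2 i : ℤ) : ℚ)) ∈ V →
          ∑ j, x j * ((∏ i, ((a.2 (J i) : ℤ) : L) ^ (j.1.1 i : ℕ)) *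
            (g0 ^ a.1 * ∏ i, g i ^ (a.2 i)) ^ (j.2 : ℕ)) = 0 := by
      by_contra hcon
      push Not at hcon
      apply hTK
      apply hPN2 n D v hv1 hD1 L hL P p g0 g nrm U Z ℓ T hU hZ hℓ hlZ hPD hOD V hV J hJ2 K Lc
        _ _ hKl
      · intro x hx
        by_contra hx0
        obtain ⟨a, ha1, ha2, ha3⟩ := hcon x hx0
        exact ha3 (hx a ha1 ha2)
      · refine le_trans ?_ hK
        gcongr
      · refine le_trans ?_ hLc
        gcongr
    -- the embedding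
    obtain ⟨τ⟩ : Nonempty (L →+* ℂ) := inferInstance
    have hg0 : τ g0 ≠ 0 := (map_ne_zero τ).2 (rc2_ne hPD.T1 hPD.T0)
    have hg : ∀ i, τ (g i) ≠ 0 := fun i => (map_ne_zero τ).2 (rc2_ne le_rfl (hPD.pu i))
    let ζ : ℤ × (Fin n → ℤ) →+ (Fin v → ℤ) :=
      { toFun := fun a i => a.2 (J i), map_zero' := rfl, map_add' := fun _ _ => rfl }
    let lam : ℤ × (Fin n → ℤ) →+ ℂ :=
      { toFun := fun a => (a.1 : ℂ) * Complex.log (τ g0) + ∑ i, (a.2 i : ℂ) * Complex.log (τ (g i))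
        map_zero' := by simp
        map_add' := fun a b => by
          simp only [Prod.fst_add, Prod.snd_add, Pi.add_apply]
          push_cast
          simp only [add_mul, Finset.sum_add_distrib]
          ring }
    have hlam : ∀ a, Complex.exp (lam a) = τ (g0 ^ a.1 * ∏ i, g i ^ (a.2 i)) := by
      intro a
      change Complex.exp ((a.1 : ℂ) * Complex.log (τ g0) +
        ∑ i, (a.2 i : ℂ) * Complex.log (τ (g i))) = _
      rw [Complex.exp_add, Complex.exp_int_mul, Complex.exp_log hg0, Complex.exp_sum, map_mul,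
        map_zpow₀, map_prod]
      congr 1
      apply Finset.prod_congr rfl
      intro i _
      rw [Complex.exp_int_mul, Complex.exp_log (hg i), map_zpow₀]
    have hx0' : (fun j => τ (x j)) ≠ 0 := by
      intro h
      apply hx0
      funext j
      have := congrFun h j
      simp only [Pi.zero_apply] at this ⊢
      exact (map_eq_zero τ).1 this
    have hfin2 : {a : GV | nrm (a : ℤ × (Fin n → ℤ)) ≤ 2 * ρ}.Finite := by
      have h1 : {a : ℤ × (Fin n → ℤ) | nrm a ≤ 2 * ρ}.Finite :=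
        hPD.fin.subset fun a ha => le_trans (show nrm a ≤ 2 * ρ from ha) (by linarith)
      exact h1.preimage Subtype.val_injective.injOn
    obtain ⟨S', hS'⟩ : ∃ S' : Finset GV, S' = hfin2.toFinset := ⟨_, rfl⟩
    have hSm' : ∀ a : GV, a ∈ S' ↔ nrm (a : ℤ × (Fin n → ℤ)) ≤ 2 * ρ := by
      intro a
      rw [hS', Set.Finite.mem_toFinset]
      rfl
    obtain ⟨H0, w, hwv, hw, hE, hfull⟩ := hZV2 v hv1 GV (ζ.comp GV.subtype) (lam.comp GV.subtype)
      K Lc hK1 hLc1 (fun j => τ (x j)) hx0' S'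
      (by
        rw [hSm']
        change nrm 0 ≤ 2 * ρ
        rw [hn0]
        linarith)
      (by
        intro a ha
        rw [hSm'] at ha ⊢
        change nrm (-(a : ℤ × (Fin n → ℤ))) ≤ 2 * ρ
        rw [hneg]
        exact ha)
      (by
        intro l hl1 hl2
        have e1 := rc2_sum (G := GV) (nrm := fun a => nrm (a : ℤ × (Fin n → ℤ))) hn0
          (fun a b => hPD.add _ _) l fun a ha => (hSm' a).1 (hl2 a ha)
        have e3 : nrm ((l.sum : GV) : ℤ × (Fin n → ℤ)) ≤ U := by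
          refine e1.trans ?_
          rw [hl1]
          push_cast
          refine le_trans ?_ hρU
          have h0 : (v : ℝ) ≤ n := by exact_mod_cast hvn
          nlinarith
        have e4 := congrArg τ (hx _ e3 (l.sum : GV).2)
        rw [map_zero, map_sum] at e4
        rw [← e4]
        apply Finset.sum_congr rfl
        intro j _
        rw [map_mul, map_mul, map_prod, map_pow]
        change τ (x j) * ((∏ i, (((ζ (l.sum : GV)) i : ℤ) : ℂ) ^ (j.1.1 i : ℕ)) *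
          Complex.exp (lam (l.sum : GV)) ^ (j.2 : ℕ)) = _
        rw [hlam]
        congr 2
        apply Finset.prod_congr rfl
        intro i _
        rw [map_pow, map_intCast]
        rfl)
    let H : AddSubgroup (ℤ × (Fin n → ℤ)) := H0.map GV.subtype
    have hHGV : H ≤ GV := AddSubgroup.map_subtype_le _
    have hHm : ∀ a : GV, a ∈ H0 → (a : ℤ × (Fin n → ℤ)) ∈ H := fun a ha =>
      AddSubgroup.mem_map_of_mem GV.subtype ha
    have hEV := hENG (ℤ × (Fin n → ℤ)) S GV H hHGV ((v - w + 1).factorial * (K ^ (v - w) * Lc)) (by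
      intro E hE1 hE2
      have hc : (E.subtype fun a => a ∈ GV).card = E.card := by
        rw [Finset.card_subtype, Finset.filter_true_of_mem fun a ha => (hE1 a ha).1]
      rw [← hc]
      apply hE
      · intro a ha
        rw [Finset.mem_subtype] at ha
        obtain ⟨-, u, hu, u', hu', e⟩ := hE1 _ ha
        rw [hSm', e]
        exact hdiff u u' ((hSm u).1 hu) ((hSm u').1 hu')
      · intro a ha b hb hab
        rw [Finset.mem_subtype] at ha hb
        apply Subtype.ext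
        exact hE2 _ ha _ hb (hHm _ hab))
    have hEV' : (({z : (ℤ × (Fin n → ℤ)) × (ℤ × (Fin n → ℤ)) |
        z.1 ∈ S ∧ z.2 ∈ S ∧ z.1 - z.2 ∈ GV}.ncard : ℕ) : ℝ) ≤
        (((v - w + 1).factorial * (K ^ (v - w) * Lc) : ℕ) : ℝ) *
        (({z : (ℤ × (Fin n → ℤ)) × (ℤ × (Fin n → ℤ)) |
        z.1 ∈ S ∧ z.2 ∈ S ∧ z.1 - z.2 ∈ H}.ncard : ℕ) : ℝ) := by exact_mod_cast hEV
    have hHex : ∀ a ∈ H, ∃ b : GV, b ∈ H0 ∧ (b : ℤ × (Fin n → ℤ)) = a := by
      rintro a ⟨b, hb1, hb2⟩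
      exact ⟨b, hb1, hb2⟩
    rcases hwv.eq_or_lt with hwe | hwl
    · -- full dimension
      exfalso
      rw [hwe, Nat.sub_self, pow_zero, one_mul, zero_add, Nat.factorial_one, one_mul] at hEV'
      refine rc2_num2 hv1 hD1 hU hS1' hLc1 hK hcount hEV' ?_
      have hker : {a : ℤ × (Fin n → ℤ) | nrm a ≤ U ∧ g0 ^ a.1 * ∏ i, g i ^ (a.2 i) = 1}.Finite :=
        hPD.fin.subset fun a ha => ha.1
      have h1 : {z : (ℤ × (Fin n → ℤ)) × (ℤ × (Fin n → ℤ)) |
          z.1 ∈ S ∧ z.2 ∈ S ∧ z.1 - z.2 ∈ H}.ncard ≤ ((S : Set (ℤ × (Fin n → ℤ))) ×ˢ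
          {a : ℤ × (Fin n → ℤ) | nrm a ≤ U ∧ g0 ^ a.1 * ∏ i, g i ^ (a.2 i) = 1}).ncard := by
        refine Set.ncard_le_ncard_of_injOn (fun z => (z.1, z.1 - z.2)) ?_ ?_
          (S.finite_toSet.prod hker)
        · rintro z ⟨h1, h2, h3⟩
          refine ⟨h1, ?_, ?_⟩
          · have := hdiff z.1 z.2 ((hSm _).1 h1) ((hSm _).1 h2)
            change nrm (z.1 - z.2) ≤ U
            linarith
          · obtain ⟨b, hb1, hb2⟩ := hHex _ h3
            have h4 := hfull hwe b hb1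
            change Complex.exp (lam (b : ℤ × (Fin n → ℤ))) = 1 at h4
            rw [hb2, hlam] at h4
            exact τ.injective (by rw [h4, map_one])
        · rintro z - z' - hzz
          have h1 := congrArg Prod.fst hzz
          have h2 := congrArg Prod.snd hzz
          simp only at h1 h2
          rw [h1] at h2
          exact Prod.ext h1 (sub_right_injective h2)
      rw [Set.ncard_prod, Set.ncard_coe_finset] at h1
      have h2 : (({z : (ℤ × (Fin n → ℤ)) × (ℤ × (Fin n → ℤ)) |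
          z.1 ∈ S ∧ z.2 ∈ S ∧ z.1 - z.2 ∈ H}.ncard : ℕ) : ℝ) ≤ (S.card : ℝ) *
          ({a : ℤ × (Fin n → ℤ) | nrm a ≤ U ∧
            g0 ^ a.1 * ∏ i, g i ^ (a.2 i) = 1}.ncard : ℝ) := by
        exact_mod_cast h1
      exact h2.trans (mul_le_mul_of_nonneg_left hPD.ker (by positivity))
    · -- smaller dimension
      let f : (Fin n → ℚ) →ₗ[ℚ] (Fin v → ℚ) := LinearMap.funLeft ℚ ℚ J
      let V' : Submodule ℚ (Fin n → ℚ) := Submodule.span ℚ {u | ∃ a ∈ H, u = rc2_cq n a}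
      have hV' : V' ≤ V := by
        rw [Submodule.span_le]
        rintro u ⟨a, ha, rfl⟩
        exact (hGV a).1 (hHGV ha)
      have hmap : V'.map f = Submodule.span ℚ {u : Fin v → ℚ | ∃ a ∈ H0,
          u = fun i => ((((ζ.comp GV.subtype) a) i : ℤ) : ℚ)} := by
        rw [Submodule.map_span]
        congr 1
        ext u
        constructor
        · rintro ⟨_, ⟨a, ha, rfl⟩, rfl⟩
          obtain ⟨b, hb1, hb2⟩ := hHex a ha
          refine ⟨b, hb1, ?_⟩
          rw [← hb2]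
          rfl
        · rintro ⟨b, hb, rfl⟩
          exact ⟨_, ⟨b, hHm b hb, rfl⟩, rfl⟩
      have hfr : Module.finrank ℚ V' = w := by
        rw [hw, ← hmap, ← LinearMap.range_domRestrict]
        symm
        apply LinearMap.finrank_range_of_inj
        rw [← LinearMap.ker_eq_bot, LinearMap.ker_eq_bot']
        rintro ⟨y, hy⟩ hy0
        have f1 : y = 0 := hJ2 y (hV' hy) fun i => congrFun hy0 i
        subst f1
        rfl
      refine ih w hwl V' hfr ?_
      have hG1 : 1 ≤ 4 * ((n : ℝ) + 1) * K * Lc := by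
        have e1 : (1 : ℝ) ≤ K := by exact_mod_cast hK1
        have e2 : (1 : ℝ) ≤ Lc := by exact_mod_cast hLc1
        have e3 : 1 ≤ 4 * ((n : ℝ) + 1) := by linarith
        exact one_le_mul_of_one_le_of_one_le (one_le_mul_of_one_le_of_one_le e3 e1) e2
      have h1 := rc2_num hwv hG1 (Nat.cast_nonneg _) hcount hEV'
        (rc2_const (by omega) (by omega))
      refine h1.trans ?_
      have h2 : {z : (ℤ × (Fin n → ℤ)) × (ℤ × (Fin n → ℤ)) |
          z.1 ∈ S ∧ z.2 ∈ S ∧ z.1 - z.2 ∈ H} ⊆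
          {z : (ℤ × (Fin n → ℤ)) × (ℤ × (Fin n → ℤ)) | nrm z.1 ≤ ρ ∧ nrm z.2 ≤ ρ ∧
            (fun i => (((z.1 - z.2).2 i : ℤ) : ℚ)) ∈ V'} := by
        rintro z ⟨h1, h2, h3⟩
        exact ⟨(hSm _).1 h1, (hSm _).1 h2, Submodule.subset_span ⟨_, h3, rfl⟩⟩
      have h3 : {z : (ℤ × (Fin n → ℤ)) × (ℤ × (Fin n → ℤ)) | nrm z.1 ≤ ρ ∧ nrm z.2 ≤ ρ ∧
            (fun i => (((z.1 - z.2).2 i : ℤ) : ℚ)) ∈ V'}.Finite := by
        refine (hprodfin fun z => (fun i => (((z.1 - z.2).2 i : ℤ) : ℚ)) ∈ V').subset ?_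
        rintro z ⟨h1, h2, h3⟩
        exact ⟨(hSm _).2 h1, (hSm _).2 h2, h3⟩
      exact_mod_cast Set.ncard_le_ncard h2 h3

end Pool.Helper99.SZ
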